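import Pool.Agent.LibNI34.Defs

/-!
[NI34 V1] the absolute value and the `j`-invariant (SHORT/MEDIUM, only Mathlib). `exists_abs`: the norm of
`PadicAlgCl r` (Mathlib/NumberTheory/Padics/Complex.lean: normed field, non-archimedean, extends the norm of `ℚ_[r]`)
composed with an embedding `Qb →ₐ[ℚ] PadicAlgCl r` (`IsAlgClosed.lift`); `f 2 = 1` as `r` is odd
(`padicNormE.norm_p_...`, `padicNorm.nat_eq_one_iff`). `eq3_of_j`: `c₄ = 16 (s ^ 2 - s t + t ^ 2)`, `Δ = 16 s ^ 2 t ^ 2 (s - t) ^ 2`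
for `lc s t`. If the three numbers `f s`, `f t`, `f (s - t)` are not equal then two of them are `M` and the third is
`m < M` (non-archimedean), `f (s ^ 2 - s t + t ^ 2) = M ^ 2` (it is `s ^ 2 - t (s - t)`, `t ^ 2 + s (s - t)`, `(s - t) ^ 2 + s t`),
`f Δ = M ^ 4 m ^ 2` and `f (c₄ ^ 3) = M ^ 6 > f Δ` (`f 16 = 1`). `j_of_eq3`: `f c₄ ≤ ρ ^ 2`, `f Δ = ρ ^ 6`.
-/

open WeierstrassCurve Pool.Agent.LibBH2 Pool.Agent.LibIG50
open scoped Classical

namespace Pool.Agent.LibNI34

theorem exists_abs (r : ℕ) (hr : r.Prime) (h2 : r ≠ 2) :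
    ∃ f : AbsoluteValue Qb ℝ, Odd2 f ∧ ∀ q : ℚ, f (algebraMap ℚ Qb q) = padicNorm r q := by
  have : Fact r.Prime := ⟨hr⟩
  have : Algebra.IsAlgebraic ℚ Qb := AlgebraicClosure.isAlgebraic ℚ
  let i : ℚ →+* PadicAlgCl r := (algebraMap ℚ_[r] (PadicAlgCl r)).comp (algebraMap ℚ ℚ_[r])
  let _ : Algebra ℚ (PadicAlgCl r) := i.toAlgebra
  let g : Qb →ₐ[ℚ] PadicAlgCl r := IsAlgClosed.lift
  have hg : ∀ q : ℚ, g (algebraMap ℚ Qb q) = algebraMap ℚ_[r] (PadicAlgCl r) (q : ℚ_[r]) := by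
    intro q
    rw [g.commutes]
    show algebraMap ℚ_[r] (PadicAlgCl r) (algebraMap ℚ ℚ_[r] q) = _
    rw [eq_ratCast]
  let f : AbsoluteValue Qb ℝ :=
    { toFun := fun x => ‖g x‖
      map_mul' := fun x y => by rw [map_mul, norm_mul]
      nonneg' := fun x => norm_nonneg _
      eq_zero' := fun x => by
        rw [norm_eq_zero]
        exact map_eq_zero g
      add_le' := fun x y => by rw [map_add]; exact norm_add_le _ _ }
  have hf : ∀ x, f x = ‖g x‖ := fun x => rfl
  have hq : ∀ q : ℚ, f (algebraMap ℚ Qb q) = padicNorm r q := by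
    intro q
    rw [hf, hg, PadicAlgCl.norm_extends, Padic.eq_padicNorm]
  refine ⟨f, ⟨fun x y => ?_, ?_⟩, hq⟩
  · rw [hf, hf, hf, map_add]
    exact PadicAlgCl.isNonarchimedean r (g x) (g y)
  · have h3 := hq 2
    rw [map_ofNat] at h3
    rw [h3]
    have h4 : padicNorm r ((2 : ℕ) : ℚ) = 1 := by
      rw [padicNorm.nat_eq_one_iff]
      intro h
      exact h2 ((Nat.prime_dvd_prime_iff_eq hr Nat.prime_two).1 h)
    rw [Nat.cast_ofNat] at h4
    rw [h4]
    norm_num

/-- the smaller absolute value does not matter -/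
theorem V1_add {f : AbsoluteValue Qb ℝ} (hf : Odd2 f) {x y : Qb} (h : f y < f x) :
    f (x + y) = f x := by
  refine le_antisymm ((hf.na x y).trans (max_le le_rfl h.le)) ?_
  have h1 := hf.na (x + y) (-y)
  rw [add_neg_cancel_right, f.map_neg] at h1
  rcases le_max_iff.1 h1 with h2 | h2
  · exact h2
  · exact absurd h (not_lt.2 h2)

theorem V1_sixteen {f : AbsoluteValue Qb ℝ} (hf : Odd2 f) : f 16 = 1 := by
  have h : (16 : Qb) = 2 ^ 4 := by norm_num
  rw [h, f.map_pow, hf.two, one_pow]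

theorem V1_c4 (s t : Qb) : (lc s t).c₄ = 16 * (s ^ 2 - s * t + t ^ 2) := by
  unfold lc WeierstrassCurve.c₄ WeierstrassCurve.b₂ WeierstrassCurve.b₄
  ring

theorem V1_disc (s t : Qb) : (lc s t).Δ = 16 * (s ^ 2 * t ^ 2 * (s - t) ^ 2) := by
  unfold lc WeierstrassCurve.Δ WeierstrassCurve.b₂ WeierstrassCurve.b₄ WeierstrassCurve.b₆
    WeierstrassCurve.b₈
  ring

theorem V1_fc4 {f : AbsoluteValue Qb ℝ} (hf : Odd2 f) (s t : Qb) :
    f ((lc s t).c₄ ^ 3) = f (s ^ 2 - s * t + t ^ 2) ^ 3 := by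
  rw [f.map_pow, V1_c4, f.map_mul, V1_sixteen hf, one_mul]

theorem V1_fdisc {f : AbsoluteValue Qb ℝ} (hf : Odd2 f) (s t : Qb) :
    f (lc s t).Δ = (f s * f t * f (s - t)) ^ 2 := by
  rw [V1_disc, f.map_mul, V1_sixteen hf, one_mul, f.map_mul, f.map_mul, f.map_pow, f.map_pow,
    f.map_pow]
  ring

/-- the case of two large numbers `a`, `b` and a small one -/
theorem V1_case {f : AbsoluteValue Qb ℝ} (hf : Odd2 f) {a b c w : Qb} (hab : f a = f b)
    (hc : f c < f a) (hw : w = a ^ 2 + b * c) : (f a * f b * f c) ^ 2 < f w ^ 3 ∨ f c = 0 := by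
  rcases eq_or_lt_of_le (f.nonneg c) with h0 | h0
  · exact Or.inr h0.symm
  left
  have ha : 0 < f a := lt_trans h0 hc
  have h1 : f w = f a ^ 2 := by
    rw [hw, ← f.map_pow]
    refine V1_add hf ?_
    rw [f.map_mul, f.map_pow, sq, ← hab]
    exact mul_lt_mul_of_pos_left hc ha
  rw [h1, ← hab]
  have h2 : f a * f a * f c < f a * f a * f a := mul_lt_mul_of_pos_left hc (mul_pos ha ha)
  have h3 : (f a * f a * f c) ^ 2 < (f a * f a * f a) ^ 2 :=
    pow_lt_pow_left₀ h2 (by positivity) (by norm_num)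
  calc (f a * f a * f c) ^ 2 < (f a * f a * f a) ^ 2 := h3
    _ = (f a ^ 2) ^ 3 := by ring

theorem eq3_of_j {f : AbsoluteValue Qb ℝ} (hf : Odd2 f) {s t : Qb} (hE : (lc s t).IsElliptic)
    (h : f ((lc s t).c₄ ^ 3) ≤ f (lc s t).Δ) : ∃ ρ, 0 < ρ ∧ Eq3 f ρ s t := by
  have hD : (lc s t).Δ ≠ 0 := hE.isUnit.ne_zero
  rw [V1_disc] at hD
  have hs : s ≠ 0 := fun h0 => hD (by rw [h0]; ring)
  have ht : t ≠ 0 := fun h0 => hD (by rw [h0]; ring)
  have hst : s - t ≠ 0 := fun h0 => hD (by rw [h0]; ring)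
  have ps : 0 < f s := f.pos hs
  have pt : 0 < f t := f.pos ht
  have pst : 0 < f (s - t) := f.pos hst
  rw [V1_fc4 hf, V1_fdisc hf] at h
  -- the two largest of the three numbers are equal
  have n1 : f s ≤ max (f t) (f (s - t)) := by
    have := hf.na t (s - t)
    rwa [add_sub_cancel] at this
  have n2 : f t ≤ max (f s) (f (s - t)) := by
    have := hf.na s (-(s - t))
    rw [f.map_neg] at this
    have e : s + -(s - t) = t := by ring
    rwa [e] at this
  have n3 : f (s - t) ≤ max (f s) (f t) := by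
    have := hf.na s (-t)
    rw [f.map_neg] at this
    have e : s + -t = s - t := by ring
    rwa [e] at this
  by_cases e1 : f s = f t
  · by_cases e2 : f (s - t) = f s
    · exact ⟨f s, ps, rfl, e1.symm, e2⟩
    · exfalso
      have hlt : f (s - t) < f s := by
        refine lt_of_le_of_ne ?_ e2
        rw [e1, max_self] at n3
        rw [e1]
        exact n3
      rcases V1_case hf (a := s) (b := -t) (c := s - t) (w := s ^ 2 - s * t + t ^ 2)
        (by rw [f.map_neg]; exact e1) hlt (by ring) with h1 | h1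
      · rw [f.map_neg] at h1
        exact absurd h (not_le.2 h1)
      · exact absurd h1 pst.ne'
  · exfalso
    rcases lt_or_gt_of_ne e1 with e2 | e2
    · -- `f s < f t`, so `f (s - t) = f t`
      have e3 : f (s - t) = f t := by
        refine le_antisymm ?_ ?_
        · rw [max_eq_right e2.le] at n3; exact n3
        · rcases le_max_iff.1 n2 with h1 | h1
          · exact absurd e2 (not_lt.2 h1)
          · exact h1
      rcases V1_case hf (a := t) (b := s - t) (c := s) (w := s ^ 2 - s * t + t ^ 2)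
        e3.symm e2 (by ring) with h1 | h1
      · have e4 : f t * f (s - t) * f s = f s * f t * f (s - t) := by ring
        rw [e4] at h1
        exact absurd h (not_le.2 h1)
      · exact absurd h1 ps.ne'
    · -- `f t < f s`, so `f (s - t) = f s`
      have e3 : f (s - t) = f s := by
        refine le_antisymm ?_ ?_
        · rw [max_eq_left e2.le] at n3; exact n3
        · rcases le_max_iff.1 n1 with h1 | h1
          · exact absurd e2 (not_lt.2 h1)
          · exact h1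
      rcases V1_case hf (a := s) (b := -(s - t)) (c := t) (w := s ^ 2 - s * t + t ^ 2)
        (by rw [f.map_neg]; exact e3.symm) e2 (by ring) with h1 | h1
      · rw [f.map_neg] at h1
        have e4 : f s * f (s - t) * f t = f s * f t * f (s - t) := by ring
        rw [e4] at h1
        exact absurd h (not_le.2 h1)
      · exact absurd h1 pt.ne'

theorem j_of_eq3 {f : AbsoluteValue Qb ℝ} (hf : Odd2 f) {ρ : ℝ} {s t : Qb} (hρ : 0 < ρ)
    (h : Eq3 f ρ s t) : f ((lc s t).c₄ ^ 3) ≤ f (lc s t).Δ := by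
  rw [V1_fc4 hf, V1_fdisc hf, h.hs, h.ht, h.hst]
  have h1 : f (s ^ 2 - s * t + t ^ 2) ≤ ρ ^ 2 := by
    have e : s ^ 2 - s * t + t ^ 2 = s * (s - t) + t ^ 2 := by ring
    rw [e]
    refine (hf.na _ _).trans ?_
    rw [f.map_mul, f.map_pow, h.hs, h.ht, h.hst]
    exact max_le (le_of_eq (sq ρ).symm) le_rfl
  calc f (s ^ 2 - s * t + t ^ 2) ^ 3 ≤ (ρ ^ 2) ^ 3 := pow_le_pow_left₀ (f.nonneg _) h1 3
    _ = (ρ * ρ * ρ) ^ 2 := by ring

end Pool.Agent.LibNI34
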