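import Pool.Agent.LibNI34.F2
import Pool.Agent.LibNI34.V1

/-!
[NI34 FIN] the curves of `rkSet` are pairwise not isogenous (SHORT/MEDIUM, cites the other rows with their sorries).
`rk_nonisog'`: as `rk_nonisog` (LibRk1/Jinv.lean), with `r ≠ 2`: its proof gives `r ∈ {q, q + 2 p}`, both odd (`rk_val`).
`exists_lc`: the polynomial `x ^ 2 + A x + B` has roots `s`, `t` in `Qb` (`rkCurve p q` has `a₁ = a₃ = a₆ = 0`). Main: let
`φ : Hm (W⁄Qb) (W'⁄Qb)` be nonzero, `W ≠ W'` in `rkSet`; take `r`, `f` with `v_r (j W) < 0 ≤ v_r (j W')`; by `Isog.symm`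
there is a nonzero homomorphism from `W'` to `W`; `f (c₄ ^ 3) ≤ f Δ` for `W'` (`padicNorm r (j W') ≤ 1`,
`c₄`, `Δ` commute with base change), so `Eq3` for `W'` (`eq3_of_j`), for `W` (`eq3_image`), so `f (c₄ ^ 3) ≤ f Δ` for `W`
(`j_of_eq3`), i.e. `padicNorm r (j W) ≤ 1`: contradiction.
-/

open WeierstrassCurve Pool.Agent.LibBH2 Pool.Agent.LibIG50 Pool.Agent.LibCHd Pool.Agent.LibGG
  Pool.Agent.LibAC34 Pool.Agent.LibAF11 Rk1
open scoped Classical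

namespace Pool.Agent.LibNI34

theorem rk_nonisog' (p q p' q' : ℕ) (hp : p.Prime) (hq : q.Prime) (hl : (q + 2 * p).Prime)
    (hp8 : p % 8 = 3) (hq8 : q % 8 = 5) (hp' : p'.Prime) (hq' : q'.Prime)
    (hl' : (q' + 2 * p').Prime) (hp8' : p' % 8 = 3) (hq8' : q' % 8 = 5)
    (hne : (p, q) ≠ (p', q')) :
    ∃ r : ℕ, r.Prime ∧ r ≠ 2 ∧ padicValRat r ((rkCurve p q).c₄ ^ 3 / (rkCurve p q).Δ) < 0 ∧
      0 ≤ padicValRat r ((rkCurve p' q').c₄ ^ 3 / (rkCurve p' q').Δ) := by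
  by_cases h : q = q'
  · have h2 : q + 2 * p ≠ q' + 2 * p' := by
      intro h3
      apply hne
      have : p = p' := by omega
      rw [this, h]
    refine ⟨q + 2 * p, hl, by omega,
      (rk_val p q _ hp hq hl hp8 hq8 rfl _ hl).1 (Or.inr rfl),
      (rk_val p' q' _ hp' hq' hl' hp8' hq8' rfl _ hl).2 ?_ h2⟩
    omega
  · refine ⟨q, hq, by omega, (rk_val p q _ hp hq hl hp8 hq8 rfl _ hq).1 (Or.inl rfl),
      (rk_val p' q' _ hp' hq' hl' hp8' hq8' rfl _ hq).2 h ?_⟩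
    omega

theorem exists_lc (p q : ℕ) : ∃ s t : Qb, (rkCurve p q)⁄Qb = lc s t := by
  set A : Qb := algebraMap ℚ Qb (-4 * p * q) with hA
  set B : Qb := algebraMap ℚ Qb (2 * p * q ^ 2 * (q + 2 * p)) with hB
  obtain ⟨d, hd⟩ := IsAlgClosed.exists_pow_nat_eq (A ^ 2 - 4 * B) (n := 2) (by norm_num)
  refine ⟨(-A + d) / 2, (-A - d) / 2, ?_⟩
  have h1 : -((-A + d) / 2 + (-A - d) / 2) = A := by ring
  have h2 : (-A + d) / 2 * ((-A - d) / 2) = B := by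
    have : (-A + d) / 2 * ((-A - d) / 2) = (A ^ 2 - d ^ 2) / 4 := by ring
    rw [this, hd]
    ring
  unfold lc
  rw [h1, h2]
  change WeierstrassCurve.map (rkCurve p q) (algebraMap ℚ Qb) = _
  unfold rkCurve WeierstrassCurve.map
  simp only [map_zero]
  rfl

theorem Fin_c4 {W : WeierstrassCurve ℚ} {s t : Qb} (h : W⁄Qb = lc s t) :
    (lc s t).c₄ = algebraMap ℚ Qb W.c₄ := by
  rw [← h]
  exact W.map_c₄ (algebraMap ℚ Qb)

theorem Fin_D {W : WeierstrassCurve ℚ} {s t : Qb} (h : W⁄Qb = lc s t) :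
    (lc s t).Δ = algebraMap ℚ Qb W.Δ := by
  rw [← h]
  exact W.map_Δ (algebraMap ℚ Qb)

theorem Fin_norm (r : ℕ) (hr : r.Prime) (a b : ℚ) (hb : b ≠ 0) :
    padicNorm r a ≤ padicNorm r b ↔ 0 ≤ padicValRat r (a / b) := by
  have := Fact.mk hr
  by_cases ha : a = 0
  · subst ha
    simp only [padicNorm.zero, zero_div, padicValRat.zero, le_refl, iff_true]
    exact padicNorm.nonneg b
  · have hab : a / b ≠ 0 := div_ne_zero ha hb
    have hr1 : (1:ℚ) < r := by exact_mod_cast hr.one_lt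
    rw [padicNorm.eq_zpow_of_nonzero ha, padicNorm.eq_zpow_of_nonzero hb,
      zpow_le_zpow_iff_right₀ hr1, padicValRat.div ha hb]
    constructor
    · intro h
      linarith
    · intro h
      linarith

theorem Fin_iff (r : ℕ) (hr : r.Prime) {f : AbsoluteValue Qb ℝ}
    (hf : ∀ q : ℚ, f (algebraMap ℚ Qb q) = padicNorm r q) {W : WeierstrassCurve ℚ} {s t : Qb}
    (hD : W.Δ ≠ 0) (h : W⁄Qb = lc s t) :
    f ((lc s t).c₄ ^ 3) ≤ f (lc s t).Δ ↔ 0 ≤ padicValRat r (W.c₄ ^ 3 / W.Δ) := by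
  rw [Fin_c4 h, Fin_D h, ← map_pow, hf, hf, ← Fin_norm r hr _ _ hD]
  exact_mod_cast Iff.rfl

theorem rkSet_isog {W W' : WeierstrassCurve ℚ} (h : W ∈ rkSet) (h' : W' ∈ rkSet)
    (hI : Isog (W⁄Qb) (W'⁄Qb)) : W = W' := by
  have hD := (rkSet_rank h).1
  have hD' := (rkSet_rank h').1
  obtain ⟨p, q, ⟨hp, hq, hl, hp8, hq8⟩, rfl⟩ := mem_rkSet.1 h
  obtain ⟨p', q', ⟨hp', hq', hl', hp8', hq8'⟩, rfl⟩ := mem_rkSet.1 h'
  by_contra hne
  have hne' : (p, q) ≠ (p', q') := by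
    intro h
    rw [Prod.mk.injEq] at h
    exact hne (by rw [h.1, h.2])
  obtain ⟨r, hr, hr2, h1, h2⟩ :=
    rk_nonisog' p q p' q' hp hq hl hp8 hq8 hp' hq' hl' hp8' hq8' hne'
  obtain ⟨f, hf, hfr⟩ := exists_abs r hr hr2
  obtain ⟨s, t, e⟩ := exists_lc p q
  obtain ⟨s', t', e'⟩ := exists_lc p' q'
  have hE : (lc s t).IsElliptic := ⟨by
    rw [Fin_D e, isUnit_iff_ne_zero, Ne, map_eq_zero]
    exact hD⟩
  have hE' : (lc s' t').IsElliptic := ⟨by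
    rw [Fin_D e', isUnit_iff_ne_zero, Ne, map_eq_zero]
    exact hD'⟩
  rw [e, e'] at hI
  obtain ⟨φ, hφ⟩ := hI.symm
  obtain ⟨ρ, hρ, hρ'⟩ := eq3_of_j hf hE' ((Fin_iff r hr hfr hD' e').2 h2)
  obtain ⟨ρ₁, hρ₁, hρ₁'⟩ := eq3_image hf hρ hρ' hE' hE φ hφ
  have h3 := (Fin_iff r hr hfr hD e).1 (j_of_eq3 hf hρ₁ hρ₁')
  exact absurd h3 (not_le.2 h1)

end Pool.Agent.LibNI34
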