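import Pool.Agent.LibAF11.Defs
import Pool.Agent.LibRk1.Clique

/-!
Isogenous elliptic curves have potentially good reduction at the same odd primes: definitions. The
curves are `y ^ 2 = x (x - s) (x - t)` over the field `Qb` of algebraic numbers, with an absolute value
`f` of `Qb`. The reduction is potentially good iff the three numbers `f s`, `f t`, `f (s - t)` are
equal.
-/

open WeierstrassCurve Pool.Agent.LibBH2 Pool.Agent.LibIG50 Pool.Agent.LibCHd Pool.Agent.LibGG
  Pool.Agent.LibAC34 Pool.Agent.LibAF11
open scoped Classical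

namespace Pool.Agent.LibNI34

/-- the curve `y ^ 2 = x (x - s) (x - t)` -/
noncomputable def lc (s t : Qb) : WeierstrassCurve Qb := ⟨0, -(s + t), 0, s * t, 0⟩

/-- the first coordinate of a point, `0` for the origin -/
noncomputable def xc {W : WeierstrassCurve Qb} : W.toAffine.Point → Qb
  | .zero => 0
  | .some x _ _ => x

theorem xc_some {W : WeierstrassCurve Qb} (x y : Qb) (h : W.toAffine.Nonsingular x y) :
    xc (.some x y h) = x := rfl

/-- the points of the kernel of the reduction, if `f s = f t = f (s - t) = ρ` -/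
def Big (f : AbsoluteValue Qb ℝ) (ρ : ℝ) {s t : Qb} (P : (lc s t).toAffine.Point) : Prop :=
  P = 0 ∨ ρ < f (xc P)

/-- the distances of the three points `0`, `s`, `t` are equal to `ρ` -/
structure Eq3 (f : AbsoluteValue Qb ℝ) (ρ : ℝ) (s t : Qb) : Prop where
  hs : f s = ρ
  ht : f t = ρ
  hst : f (s - t) = ρ

/-- a non-archimedean absolute value with `f 2 = 1` -/
structure Odd2 (f : AbsoluteValue Qb ℝ) : Prop where
  na : ∀ x y, f (x + y) ≤ max (f x) (f y)
  two : f 2 = 1

end Pool.Agent.LibNI34
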