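import Pool.Agent.LibNI34.Defs

/-!
[NI34 G2] points with different reductions (elementary; MEDIUM). Let `P`, `Q` be points with coordinates
`x₁`, `x₂` of absolute value `≤ ρ`, and neither `P + Q` nor `P - Q` big. Claim: `f (x₁ - x₂) = ρ`. `≤` is clear.
Suppose `d = x₁ - x₂` has `f d < ρ`. If `x₁ = x₂` then `P = Q` or `P = -Q`, so `P - Q = 0` or `P + Q = 0` is big:
contradiction. Otherwise let `x₃`, `x₄` be the first coordinates of `P ± Q`. Identity (`field_simp`, `ring` with the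
equations of the curve): for `e ∈ {0, s, t}` with the other two `e'`, `e''`:
`(x₃ - e) (x₄ - e) (x₁ - x₂) ^ 2 = ((x₁ - e) (x₂ - e) - (e - e') (e - e'')) ^ 2`.
As `f x₃, f x₄ ≤ ρ` the left side is `< ρ ^ 4`, so `f ((x₁ - e) (x₂ - e) - (e - e') (e - e'')) < ρ ^ 2`, and
`f ((x₁ - e) ^ 2 - (e - e') (e - e'')) < ρ ^ 2` (`f (x₁ - e) ≤ ρ`, `f d < ρ`). The difference of these for `e = 0`
and `e = s` is `x₁ ^ 2 - s t - ((x₁ - s) ^ 2 - s (s - t)) = 2 s (x₁ - t)`, so `f (x₁ - t) < ρ`; the one for `e = 0` and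
`e = t` is `2 t (x₁ - s)`, so `f (x₁ - s) < ρ`; hence `f (s - t) < ρ`, contradiction.
-/

open WeierstrassCurve Pool.Agent.LibBH2 Pool.Agent.LibIG50
open scoped Classical

namespace Pool.Agent.LibNI34

variable {f : AbsoluteValue Qb ℝ} {ρ : ℝ} {s t : Qb}

private theorem G2_lt (hf : Odd2 f) {a b : Qb} {r : ℝ} (ha : f a < r) (hb : f b < r) :
    f (a - b) < r := by
  have h1 := hf.na a (-b)
  rw [f.map_neg, ← sub_eq_add_neg] at h1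
  exact lt_of_le_of_lt h1 (max_lt ha hb)

private theorem G2_le (hf : Odd2 f) {a b : Qb} {r : ℝ} (ha : f a ≤ r) (hb : f b ≤ r) :
    f (a - b) ≤ r := by
  have h1 := hf.na a (-b)
  rw [f.map_neg, ← sub_eq_add_neg] at h1
  exact h1.trans (max_le ha hb)

/-- the identity for the first coordinates of `P ± Q` -/
private theorem G2_ident {s t x₁ x₂ x₃ x₄ y₁ y₂ : Qb} (hd : x₁ - x₂ ≠ 0)
    (hy₁ : y₁ ^ 2 = x₁ * (x₁ - s) * (x₁ - t)) (hy₂ : y₂ ^ 2 = x₂ * (x₂ - s) * (x₂ - t))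
    (h3 : x₃ * (x₁ - x₂) ^ 2 = (y₁ - y₂) ^ 2 + (s + t - x₁ - x₂) * (x₁ - x₂) ^ 2)
    (h4 : x₄ * (x₁ - x₂) ^ 2 = (y₁ + y₂) ^ 2 + (s + t - x₁ - x₂) * (x₁ - x₂) ^ 2)
    (e c : Qb) (hec : (e = 0 ∧ c = s * t) ∨ (e = s ∧ c = s * (s - t)) ∨ (e = t ∧ c = t * (t - s))) :
    (x₃ - e) * (x₄ - e) * (x₁ - x₂) ^ 2 = ((x₁ - e) * (x₂ - e) - c) ^ 2 := by
  have hd2 : (x₁ - x₂) ^ 2 ≠ 0 := pow_ne_zero 2 hd
  refine mul_right_cancel₀ hd2 ?_
  have hA : (x₃ - e) * (x₁ - x₂) ^ 2 = (y₁ - y₂) ^ 2 + (s + t - x₁ - x₂ - e) * (x₁ - x₂) ^ 2 := by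
    linear_combination h3
  have hB : (x₄ - e) * (x₁ - x₂) ^ 2 = (y₁ + y₂) ^ 2 + (s + t - x₁ - x₂ - e) * (x₁ - x₂) ^ 2 := by
    linear_combination h4
  calc (x₃ - e) * (x₄ - e) * (x₁ - x₂) ^ 2 * (x₁ - x₂) ^ 2
      = ((x₃ - e) * (x₁ - x₂) ^ 2) * ((x₄ - e) * (x₁ - x₂) ^ 2) := by ring
    _ = ((y₁ - y₂) ^ 2 + (s + t - x₁ - x₂ - e) * (x₁ - x₂) ^ 2) *
        ((y₁ + y₂) ^ 2 + (s + t - x₁ - x₂ - e) * (x₁ - x₂) ^ 2) := by rw [hA, hB]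
    _ = (y₁ ^ 2 - y₂ ^ 2) ^ 2 + 2 * (y₁ ^ 2 + y₂ ^ 2) * (s + t - x₁ - x₂ - e) * (x₁ - x₂) ^ 2 +
        (s + t - x₁ - x₂ - e) ^ 2 * (x₁ - x₂) ^ 4 := by ring
    _ = ((x₁ - e) * (x₂ - e) - c) ^ 2 * (x₁ - x₂) ^ 2 := by
        rw [hy₁, hy₂]
        rcases hec with ⟨rfl, rfl⟩ | ⟨rfl, rfl⟩ | ⟨rfl, rfl⟩ <;> ring

private theorem G2_eq {x y : Qb} (h : (lc s t).toAffine.Nonsingular x y) :
    y ^ 2 = x * (x - s) * (x - t) := by
  have h1 := (WeierstrassCurve.Affine.equation_iff x y).1 h.1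
  simp only [lc] at h1
  linear_combination h1

private theorem G2_negY (x y : Qb) : (lc s t).toAffine.negY x y = -y := by
  simp [WeierstrassCurve.Affine.negY, lc]

/-- the first coordinate of a sum -/
private theorem G2_add {x₁ y₁ x₂ y₂ : Qb} (h₁ : (lc s t).toAffine.Nonsingular x₁ y₁)
    (h₂ : (lc s t).toAffine.Nonsingular x₂ y₂) (hx : x₁ ≠ x₂) :
    xc (WeierstrassCurve.Affine.Point.some x₁ y₁ h₁ + WeierstrassCurve.Affine.Point.some x₂ y₂ h₂) *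
      (x₁ - x₂) ^ 2 = (y₁ - y₂) ^ 2 + (s + t - x₁ - x₂) * (x₁ - x₂) ^ 2 := by
  have hd : x₁ - x₂ ≠ 0 := sub_ne_zero.2 hx
  rw [WeierstrassCurve.Affine.Point.add_some (fun h => hx h.1), xc_some,
    WeierstrassCurve.Affine.slope_of_X_ne hx]
  simp only [WeierstrassCurve.Affine.addX, lc]
  field_simp
  ring

/-- the estimate for a difference of the products -/
private theorem G2_est (hf : Odd2 f) (hρ : 0 < ρ) {x₁ x₂ x₃ x₄ e c : Qb} (he : f e ≤ ρ)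
    (h1 : f x₁ ≤ ρ) (h3 : f x₃ ≤ ρ) (h4 : f x₄ ≤ ρ) (hd : f (x₁ - x₂) < ρ)
    (hid : (x₃ - e) * (x₄ - e) * (x₁ - x₂) ^ 2 = ((x₁ - e) * (x₂ - e) - c) ^ 2) :
    f ((x₁ - e) ^ 2 - c) < ρ ^ 2 := by
  have h5 : f ((x₁ - e) * (x₂ - e) - c) < ρ ^ 2 := by
    have h6 : f ((x₁ - e) * (x₂ - e) - c) ^ 2 < (ρ ^ 2) ^ 2 := by
      rw [← map_pow, ← hid, map_mul, map_mul, map_pow]
      have h7 : f (x₃ - e) ≤ ρ := G2_le hf h3 he
      have h8 : f (x₄ - e) ≤ ρ := G2_le hf h4 he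
      have h9 : f (x₃ - e) * f (x₄ - e) ≤ ρ * ρ :=
        mul_le_mul h7 h8 (f.nonneg _) hρ.le
      have h10 : f (x₁ - x₂) ^ 2 < ρ ^ 2 := pow_lt_pow_left₀ hd (f.nonneg _) two_ne_zero
      calc f (x₃ - e) * f (x₄ - e) * f (x₁ - x₂) ^ 2 ≤ ρ * ρ * f (x₁ - x₂) ^ 2 :=
            mul_le_mul_of_nonneg_right h9 (sq_nonneg _)
        _ < ρ * ρ * ρ ^ 2 := mul_lt_mul_of_pos_left h10 (mul_pos hρ hρ)
        _ = (ρ ^ 2) ^ 2 := by ring
    exact lt_of_pow_lt_pow_left₀ 2 (sq_nonneg ρ) h6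
  have h6 : f (-((x₁ - e) * (x₁ - x₂))) < ρ ^ 2 := by
    rw [f.map_neg, map_mul, sq]
    have h7 : f (x₁ - e) ≤ ρ := G2_le hf h1 he
    calc f (x₁ - e) * f (x₁ - x₂) ≤ ρ * f (x₁ - x₂) :=
          mul_le_mul_of_nonneg_right h7 (f.nonneg _)
      _ < ρ * ρ := mul_lt_mul_of_pos_left hd hρ
  have h7 : (x₁ - e) ^ 2 - c = ((x₁ - e) * (x₂ - e) - c) - -((x₁ - e) * (x₁ - x₂)) := by ring
  rw [h7]
  exact G2_lt hf h5 h6

theorem dist_eq (hf : Odd2 f) (hρ : 0 < ρ) (h : Eq3 f ρ s t) (P Q : (lc s t).toAffine.Point)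
    (hP : ¬ Big f ρ P) (hQ : ¬ Big f ρ Q) (h1 : ¬ Big f ρ (P + Q)) (h2 : ¬ Big f ρ (P - Q)) :
    f (xc P - xc Q) = ρ := by
  rcases P with _ | ⟨x₁, y₁, hn₁⟩
  · exact absurd (Or.inl rfl) hP
  rcases Q with _ | ⟨x₂, y₂, hn₂⟩
  · exact absurd (Or.inl rfl) hQ
  have hx₁ : f x₁ ≤ ρ := not_lt.1 fun hc => hP (Or.inr hc)
  have hx₂ : f x₂ ≤ ρ := not_lt.1 fun hc => hQ (Or.inr hc)
  change f (x₁ - x₂) = ρ
  refine le_antisymm (G2_le hf hx₁ hx₂) (not_lt.1 fun hd => ?_)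
  have hy₁ := G2_eq hn₁
  have hy₂ := G2_eq hn₂
  by_cases hx : x₁ = x₂
  · subst hx
    have h3 : (y₁ - y₂) * (y₁ + y₂) = 0 := by linear_combination hy₁ - hy₂
    rcases mul_eq_zero.1 h3 with h4 | h4
    · have h5 : y₁ = y₂ := sub_eq_zero.1 h4
      subst h5
      exact h2 (Or.inl (sub_self _))
    · have h5 : y₁ = -y₂ := eq_neg_of_add_eq_zero_left h4
      refine h1 (Or.inl ?_)
      refine WeierstrassCurve.Affine.Point.add_of_Y_eq rfl ?_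
      rw [G2_negY]
      exact h5
  · have hdx : x₁ - x₂ ≠ 0 := sub_ne_zero.2 hx
    -- the difference
    have hneg : (lc s t).toAffine.Nonsingular x₂ (-y₂) := by
      have h3 := (WeierstrassCurve.Affine.nonsingular_neg x₂ y₂).2 hn₂
      rw [G2_negY] at h3
      exact h3
    have hsub : WeierstrassCurve.Affine.Point.some x₁ y₁ hn₁ -
        WeierstrassCurve.Affine.Point.some x₂ y₂ hn₂ =
        WeierstrassCurve.Affine.Point.some x₁ y₁ hn₁ +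
          WeierstrassCurve.Affine.Point.some x₂ (-y₂) hneg := by
      rw [sub_eq_add_neg, WeierstrassCurve.Affine.Point.neg_some]
      congr 1
      simp only [G2_negY]
    rw [hsub] at h2
    have ha := G2_add hn₁ hn₂ hx
    have hb := G2_add hn₁ hneg hx
    rw [sub_neg_eq_add] at hb
    set x₃ := xc (WeierstrassCurve.Affine.Point.some x₁ y₁ hn₁ +
      WeierstrassCurve.Affine.Point.some x₂ y₂ hn₂) with hx₃
    set x₄ := xc (WeierstrassCurve.Affine.Point.some x₁ y₁ hn₁ +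
      WeierstrassCurve.Affine.Point.some x₂ (-y₂) hneg) with hx₄
    have h3 : f x₃ ≤ ρ := not_lt.1 fun hc => h1 (Or.inr hc)
    have h4 : f x₄ ≤ ρ := not_lt.1 fun hc => h2 (Or.inr hc)
    have hid := G2_ident hdx hy₁ hy₂ ha hb
    have e0 := G2_est hf hρ (e := 0) (by rw [map_zero]; exact hρ.le) hx₁ h3 h4 hd
      (hid 0 (s * t) (Or.inl ⟨rfl, rfl⟩))
    have es := G2_est hf hρ (e := s) h.hs.le hx₁ h3 h4 hd
      (hid s (s * (s - t)) (Or.inr (Or.inl ⟨rfl, rfl⟩)))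
    have et := G2_est hf hρ (e := t) h.ht.le hx₁ h3 h4 hd
      (hid t (t * (t - s)) (Or.inr (Or.inr ⟨rfl, rfl⟩)))
    have h5 : f (x₁ - t) < ρ := by
      have h6 := G2_lt hf e0 es
      have h7 : (x₁ - 0) ^ 2 - s * t - ((x₁ - s) ^ 2 - s * (s - t)) = 2 * s * (x₁ - t) := by ring
      rw [h7, map_mul, map_mul, hf.two, one_mul, h.hs, sq] at h6
      exact lt_of_mul_lt_mul_left h6 hρ.le
    have h6 : f (x₁ - s) < ρ := by
      have h7 := G2_lt hf e0 et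
      have h8 : (x₁ - 0) ^ 2 - s * t - ((x₁ - t) ^ 2 - t * (t - s)) = 2 * t * (x₁ - s) := by ring
      rw [h8, map_mul, map_mul, hf.two, one_mul, h.ht, sq] at h7
      exact lt_of_mul_lt_mul_left h7 hρ.le
    have h7 := G2_lt hf h5 h6
    have h8 : x₁ - t - (x₁ - s) = s - t := by ring
    rw [h8, h.hst] at h7
    exact lt_irrefl _ h7

end Pool.Agent.LibNI34
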