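import Pool.Agent.LibNI34.G1

/-!
[NI34 G3] torsion points which are not big (SHORT, cites G1 with its sorries). `n = 2 ^ a * b` with `b` odd;
`R' = b • R ≠ 0`, `2 ^ a • R' = 0`; take the smallest `c` with `2 ^ c • R' = 0` (`Nat.find`), `c ≥ 1`, `R'' = 2 ^ (c - 1) • R' ≠ 0`,
`2 • R'' = 0`. If `R` is big then `R''` is (`big_smul`). `R'' = some x y h` with `some x y = -some x y = some x (-y)`, so
`y = 0`, `x ∈ {0, s, t}` and `f x ≤ ρ`, contradiction.
-/

open WeierstrassCurve Pool.Agent.LibBH2 Pool.Agent.LibIG50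
open scoped Classical

namespace Pool.Agent.LibNI34

variable {f : AbsoluteValue Qb ℝ} {ρ : ℝ} {s t : Qb}

private theorem g3_eq {s t x y : Qb} (h : (lc s t).toAffine.Nonsingular x y) :
    y ^ 2 = x * (x - s) * (x - t) := by
  have h1 := ((lc s t).toAffine.equation_iff x y).1 h.1
  simp only [lc] at h1
  linear_combination h1

/-- the points of order two -/
theorem xc_two (P : (lc s t).toAffine.Point) (h : 2 • P = 0) (h0 : P ≠ 0) :
    xc P = 0 ∨ xc P = s ∨ xc P = t := by
  match P, h, h0 with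
  | .zero, _, h0 => exact absurd rfl h0
  | .some x y hxy, h, _ =>
    rw [two_smul] at h
    have h1 := eq_neg_of_add_eq_zero_left h
    rw [Affine.Point.neg_some] at h1
    injection h1 with h2 h3
    have h4 : y = -y := by
      rw [Affine.negY] at h3
      simp only [lc] at h3
      linear_combination h3
    have h5 : y = 0 := by
      have h6 : (2 : Qb) * y = 0 := by linear_combination h4
      rcases mul_eq_zero.1 h6 with h7 | h7
      · exact absurd h7 two_ne_zero
      · exact h7
    have h8 := g3_eq hxy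
    rw [h5, zero_pow two_ne_zero] at h8
    rw [xc_some]
    rcases mul_eq_zero.1 h8.symm with h9 | h9
    · rcases mul_eq_zero.1 h9 with h10 | h10
      · exact Or.inl h10
      · exact Or.inr (Or.inl (sub_eq_zero.1 h10))
    · exact Or.inr (Or.inr (sub_eq_zero.1 h9))

theorem not_big (hf : Odd2 f) (hρ : 0 < ρ) (h : Eq3 f ρ s t) (R : (lc s t).toAffine.Point)
    {n : ℕ} (hn : 0 < n) (hR : n • R = 0) (hodd : ∀ b : ℕ, Odd b → b • R ≠ 0) :
    ¬ Big f ρ R := by
  intro hB
  obtain ⟨a, b, hb, rfl⟩ := Nat.exists_eq_two_pow_mul_odd hn.ne'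
  have h1 : b • R ≠ 0 := hodd b hb
  have h2 : ∃ c, 2 ^ c • (b • R) = 0 := ⟨a, by rw [← mul_smul, hR]⟩
  have hc := Nat.find_spec h2
  have hmin : ∀ c, c < Nat.find h2 → 2 ^ c • (b • R) ≠ 0 := fun c hc => Nat.find_min h2 hc
  generalize Nat.find h2 = c at hc hmin
  cases c with
  | zero =>
    rw [pow_zero, one_smul] at hc
    exact h1 hc
  | succ c =>
    have h3 : 2 ^ c • (b • R) ≠ 0 := hmin c (Nat.lt_succ_self c)
    have h4 : 2 • (2 ^ c • (b • R)) = 0 := by
      rw [← mul_smul, ← pow_succ']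
      exact hc
    have h5 : Big f ρ (2 ^ c • (b • R)) := big_smul hf hρ h _ (big_smul hf hρ h _ hB b) _
    have h6 : ρ < f (xc (2 ^ c • (b • R))) := h5.resolve_left h3
    rcases xc_two _ h4 h3 with h7 | h7 | h7
    · rw [h7, map_zero] at h6
      linarith
    · rw [h7, h.hs] at h6
      exact lt_irrefl _ h6
    · rw [h7, h.ht] at h6
      exact lt_irrefl _ h6

end Pool.Agent.LibNI34
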