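import Pool.Agent.LibNI34.F1
import Pool.Agent.LibNI34.G2
import Pool.Agent.LibNI34.G3
import Pool.Agent.LibAF11.Red4

/-!
[NI34 F2] the images of curves with potentially good reduction (MEDIUM, cites the other rows with their sorries).
Let `e₁, e₂, e₃ = 0, s', t'`, `T_i = (e_i, 0)` the points of order two of `lc s' t'` and `P_i` with `φ.k0 P_i = T_i`
(`k0_surj`). (0) A point `R` with `φ.k0 R = T_i` is not big: `not_big` (`b • R ↦ b • T_i = T_i ≠ 0` for `b` odd; `2 • R` is in the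
kernel of `φ` and `exists_dual` (LibAF11/If): `n • R' = ψ (φ R') = 0` for `R'` in the kernel, so `(2 n) • R = 0`). (1) For `i ≠ j` and
`φ.k0 S = T_j`: `P_i ± S` are mapped to `T_i ± T_j = T_k`, so `f (xc P_i - xc S) = ρ` (`dist_eq`). (2) `N - e_j D` has degree
`m = deg N` and leading coefficient `c = lead N` (as `deg D < deg N`); it is `c ∏ (X - x)`, `x` in its roots
(`IsAlgClosed.splits`, `Polynomial.eval_eq_prod_roots_sub_of_splits_id` or similar); a root `x` is `xc S` of a point `S ≠ 0`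
(`Qb` is algebraically closed), `D.eval x ≠ 0` (coprime), so `φ.k0 S ≠ 0`, `xc (φ.k0 S) = e_j`, `φ.k0 S = T_j`. So
`f (N(x_i) - e_j D(x_i)) = f c * ρ ^ m`, `x_i = xc P_i`. But `N(x_i) = e_i D(x_i)`: `f (e_i - e_j) * f (D x_i) = f c * ρ ^ m`.
(3) `f (D x_i)` does not depend on `i`: `D = d ∏ (X - x)`, `x = xc T` with `φ.k0 T = 0` (`T ≠ 0`; if `φ.k0 T ≠ 0` then
`D.eval (xc T) ≠ 0`). If `T` is big: `f (x_i - x) = f x` (as `f x > ρ ≥ f x_i`); if not: `P_i ± T ↦ T_i`, so
`f (x_i - x) = ρ`. So all `f (e_i - e_j)` are equal; `ρ' = f c * ρ ^ m / f (D x_1)`.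
-/

open WeierstrassCurve Pool.Agent.LibBH2 Pool.Agent.LibIG50 Pool.Agent.LibCHd Pool.Agent.LibGG
  Pool.Agent.LibAC34 Pool.Agent.LibAF11
open scoped Classical

namespace Pool.Agent.LibNI34

private theorem f2_nonsing {s t x y : Qb} (hV : (lc s t).IsElliptic)
    (h : y ^ 2 = x * (x - s) * (x - t)) : (lc s t).toAffine.Nonsingular x y := by
  have : (lc s t).toAffine.IsElliptic := hV
  refine Affine.equation_iff_nonsingular.1 ?_
  rw [Affine.equation_iff]
  simp only [lc]
  linear_combination h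

private theorem f2_eq {s t x y : Qb} (h : (lc s t).toAffine.Nonsingular x y) :
    y ^ 2 = x * (x - s) * (x - t) := by
  have h1 := ((lc s t).toAffine.equation_iff x y).1 h.1
  simp only [lc] at h1
  linear_combination h1

/-- points with given first coordinate -/
private theorem f2_exists {s t : Qb} (hV : (lc s t).IsElliptic) (x : Qb) :
    ∃ S : (lc s t).toAffine.Point, S ≠ 0 ∧ xc S = x := by
  obtain ⟨y, hy⟩ := IsAlgClosed.exists_pow_nat_eq (x * (x - s) * (x - t)) (n := 2) (by norm_num)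
  refine ⟨.some x y (f2_nonsing hV hy), ?_, rfl⟩
  intro h
  cases h

/-- a point with first coordinate `0`, `s` or `t` -/
private theorem f2_two {s t : Qb} (P : (lc s t).toAffine.Point) (h0 : P ≠ 0)
    (h : xc P * (xc P - s) * (xc P - t) = 0) : 2 • P = 0 := by
  match P, h0, h with
  | .zero, h0, _ => exact absurd rfl h0
  | .some x y hxy, _, h =>
    rw [xc_some] at h
    have h1 := f2_eq hxy
    rw [h] at h1
    have h2 : y = 0 := pow_eq_zero_iff (two_ne_zero) |>.1 h1
    rw [two_smul, add_eq_zero_iff_eq_neg, Affine.Point.neg_some]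
    subst h2
    congr 1
    rw [Affine.negY]
    simp only [lc]
    ring

private theorem f2_eq_of_xc {s t : Qb} (P Q : (lc s t).toAffine.Point) (hP : P ≠ 0) (hQ : Q ≠ 0)
    (h : xc P * (xc P - s) * (xc P - t) = 0) (hx : xc P = xc Q) : P = Q := by
  match P, Q, hP, hQ, h, hx with
  | .zero, _, hP, _, _, _ => exact absurd rfl hP
  | .some _ _ _, .zero, _, hQ, _, _ => exact absurd rfl hQ
  | .some x y hxy, .some x' y' hxy', _, _, h, hx =>
    rw [xc_some] at h
    have hx' : x = x' := hx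
    subst hx'
    have h1 := f2_eq hxy
    have h1' := f2_eq hxy'
    rw [h] at h1 h1'
    have h2 : y = 0 := pow_eq_zero_iff (two_ne_zero) |>.1 h1
    have h2' : y' = 0 := pow_eq_zero_iff (two_ne_zero) |>.1 h1'
    subst h2
    subst h2'
    rfl

section f2

variable {f : AbsoluteValue Qb ℝ} {ρ : ℝ} {s t s' t' : Qb}

private theorem f2_notBig (hf : Odd2 f) (hρ : 0 < ρ) (h : Eq3 f ρ s t) (hV : (lc s t).IsElliptic)
    (hW : (lc s' t').IsElliptic) (φ : Hm (lc s t) (lc s' t')) (hφ : ∃ p, φ.k0 p ≠ 0)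
    (R : (lc s t).toAffine.Point) (h2 : 2 • φ.k0 R = 0) (h0 : φ.k0 R ≠ 0) : ¬ Big f ρ R := by
  obtain ⟨n, ψ, hn, h3, -⟩ := exists_dual φ hφ
  refine not_big hf hρ h R (n := n * 2) (by omega) ?_ fun b hb hR => ?_
  · rw [mul_smul, ← k0_mul φ ψ h3]
    have h4 : φ.k0 (2 • R) = 0 := by
      rw [← h2]
      exact map_nsmul φ.k0H 2 R
    rw [h4]
    exact map_zero ψ.k0H
  · have h5 : b • φ.k0 R = 0 := by
      have h6 : φ.k0 (b • R) = b • φ.k0 R := map_nsmul φ.k0H b R
      rw [← h6, hR]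
      exact map_zero φ.k0H
    obtain ⟨c, rfl⟩ := hb
    rw [add_smul, mul_comm, mul_smul, h2, smul_zero, zero_add, one_smul] at h5
    exact h0 h5

private theorem f2_dist (hf : Odd2 f) (hρ : 0 < ρ) (h : Eq3 f ρ s t) (hV : (lc s t).IsElliptic)
    (hW : (lc s' t').IsElliptic) (φ : Hm (lc s t) (lc s' t')) (hφ : ∃ p, φ.k0 p ≠ 0)
    (P S : (lc s t).toAffine.Point) (hP2 : 2 • φ.k0 P = 0) (hP0 : φ.k0 P ≠ 0)
    (hS2 : 2 • φ.k0 S = 0) (hne : φ.k0 P ≠ φ.k0 S) (hS : ¬ Big f ρ S) :
    f (xc P - xc S) = ρ := by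
  have ha : φ.k0 (P + S) = φ.k0 P + φ.k0 S := map_add φ.k0H P S
  have hs : φ.k0 (P - S) = φ.k0 P - φ.k0 S := map_sub φ.k0H P S
  have hneg : - φ.k0 S = φ.k0 S := by
    rw [two_smul] at hS2
    exact (eq_neg_of_add_eq_zero_left hS2).symm
  refine dist_eq hf hρ h P S (f2_notBig hf hρ h hV hW φ hφ P hP2 hP0) hS ?_ ?_
  · refine f2_notBig hf hρ h hV hW φ hφ _ ?_ ?_
    · rw [ha, smul_add, hP2, hS2, add_zero]
    · rw [ha]
      intro h1
      exact hne ((eq_neg_of_add_eq_zero_left h1).trans hneg)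
  · refine f2_notBig hf hρ h hV hW φ hφ _ ?_ ?_
    · rw [hs, smul_sub, hP2, hS2, sub_zero]
    · rw [hs]
      exact sub_ne_zero.2 hne

private theorem f2_prod (hs : ∀ m : Multiset Qb, f m.prod = (m.map f).prod) (p : Polynomial Qb)
    (x : Qb) : f (p.eval x) = f p.leadingCoeff * (p.roots.map fun r => f (x - r)).prod := by
  rw [(IsAlgClosed.splits p).eval_eq_prod_roots x, f.map_mul, hs, Multiset.map_map]
  rfl

private theorem f2_lt (hf : Odd2 f) {a b : Qb} (h : f a < f b) : f (a - b) = f b := by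
  have h1 := hf.na a (-b)
  rw [f.map_neg, ← sub_eq_add_neg, max_eq_right h.le] at h1
  refine le_antisymm h1 ?_
  have h2 := hf.na a (-(a - b))
  rw [f.map_neg, show a + -(a - b) = b by ring] at h2
  rcases le_max_iff.1 h2 with h3 | h3
  · exact absurd h3 (not_le.2 h)
  · exact h3

end f2

theorem eq3_image {f : AbsoluteValue Qb ℝ} {ρ : ℝ} {s t s' t' : Qb} (hf : Odd2 f) (hρ : 0 < ρ)
    (h : Eq3 f ρ s t) (hV : (lc s t).IsElliptic) (hW : (lc s' t').IsElliptic)
    (φ : Hm (lc s t) (lc s' t')) (hφ : ∃ p, φ.k0 p ≠ 0) : ∃ ρ', 0 < ρ' ∧ Eq3 f ρ' s' t' := by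
  obtain ⟨N, D, hND, hD0, hdeg, hx⟩ := exists_ND hV hW φ hφ
  have hmp : ∀ m : Multiset Qb, f m.prod = (m.map f).prod := fun m => map_multiset_prod f m
  have hN0 : N ≠ 0 := by
    rintro rfl
    rw [Polynomial.natDegree_zero] at hdeg
    exact absurd hdeg (Nat.not_lt_zero _)
  have hcop : ∀ x, D.eval x = 0 → N.eval x ≠ 0 := by
    intro x h1 h2
    obtain ⟨a, b, hab⟩ := hND
    have h3 := congrArg (Polynomial.eval x) hab
    rw [Polynomial.eval_add, Polynomial.eval_mul, Polynomial.eval_mul, h1, h2, mul_zero, mul_zero,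
      add_zero, Polynomial.eval_one] at h3
    exact zero_ne_one h3
  -- preimages of the points of order two
  have hT : ∀ e : Qb, e * (e - s') * (e - t') = 0 → ∃ P : (lc s t).toAffine.Point,
      φ.k0 P ≠ 0 ∧ xc (φ.k0 P) = e ∧ 2 • φ.k0 P = 0 := by
    intro e he
    obtain ⟨Q, hQ0, hQe⟩ := f2_exists hW e
    obtain ⟨P, rfl⟩ := k0_surj φ hφ Q
    refine ⟨P, hQ0, hQe, f2_two _ hQ0 ?_⟩
    rw [hQe]
    exact he
  have hρ0 : ∀ {x : Qb}, ¬ ρ < f x → f x ≤ ρ := fun h => not_lt.1 h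
  -- the numerator
  have hM : ∀ (P : (lc s t).toAffine.Point) (e : Qb), φ.k0 P ≠ 0 → 2 • φ.k0 P = 0 →
      e * (e - s') * (e - t') = 0 → xc (φ.k0 P) ≠ e →
      f (xc (φ.k0 P) - e) * f (D.eval (xc P)) = f N.leadingCoeff * ρ ^ N.natDegree := by
    intro P e hP0 hP2 he hne
    have hP : P ≠ 0 := by
      rintro rfl
      exact hP0 (map_zero φ.k0H)
    have hlt : (Polynomial.C e * D).degree < N.degree := by
      refine lt_of_le_of_lt ?_ (Polynomial.degree_lt_degree hdeg)
      rw [← Polynomial.smul_eq_C_mul]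
      exact Polynomial.degree_smul_le e D
    have h1 : (N - Polynomial.C e * D).leadingCoeff = N.leadingCoeff :=
      Polynomial.leadingCoeff_sub_of_degree_lt hlt
    have h2 : (N - Polynomial.C e * D).natDegree = N.natDegree :=
      Polynomial.natDegree_eq_of_degree_eq (Polynomial.degree_sub_eq_left_of_degree_lt hlt)
    have h3 : (N - Polynomial.C e * D) ≠ 0 := by
      intro h4
      rw [h4, Polynomial.leadingCoeff_zero] at h1
      exact hN0 (Polynomial.leadingCoeff_eq_zero.1 h1.symm)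
    have h4 : (N - Polynomial.C e * D).eval (xc P) = (xc (φ.k0 P) - e) * D.eval (xc P) := by
      rw [Polynomial.eval_sub, Polynomial.eval_mul, Polynomial.eval_C, ((hx P hP).2 hP0).2]
      ring
    have h5 := f2_prod hmp (N - Polynomial.C e * D) (xc P)
    rw [h4, f.map_mul, h1] at h5
    rw [h5]
    congr 1
    have h6 : ∀ r ∈ (N - Polynomial.C e * D).roots, f (xc P - r) = ρ := by
      intro r hr
      obtain ⟨S, hS0, rfl⟩ := f2_exists hV r
      have h7 : N.eval (xc S) = e * D.eval (xc S) := by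
        have h8 := (Polynomial.mem_roots h3).1 hr
        rw [Polynomial.IsRoot, Polynomial.eval_sub, Polynomial.eval_mul, Polynomial.eval_C,
          sub_eq_zero] at h8
        exact h8
      have h9 : D.eval (xc S) ≠ 0 := by
        intro h10
        rw [h10, mul_zero] at h7
        exact hcop _ h10 h7
      have h11 : φ.k0 S ≠ 0 := fun h12 => h9 ((hx S hS0).1 h12)
      have h13 : xc (φ.k0 S) = e := by
        have h14 := ((hx S hS0).2 h11).2
        rw [h7] at h14
        exact (mul_right_cancel₀ h9 h14).symm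
      have h15 : 2 • φ.k0 S = 0 := f2_two _ h11 (by rw [h13]; exact he)
      refine f2_dist hf hρ h hV hW φ hφ P S hP2 hP0 h15 ?_
        (f2_notBig hf hρ h hV hW φ hφ S h15 h11)
      intro h16
      rw [h16] at hne
      exact hne h13
    rw [Multiset.map_congr rfl h6, Multiset.map_const', Multiset.prod_replicate,
      ← (IsAlgClosed.splits _).natDegree_eq_card_roots, h2]
  -- the denominator
  have hDen : ∀ P : (lc s t).toAffine.Point, φ.k0 P ≠ 0 → 2 • φ.k0 P = 0 →
      f (D.eval (xc P)) = f D.leadingCoeff * (D.roots.map fun r => max ρ (f r)).prod := by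
    intro P hP0 hP2
    rw [f2_prod hmp D (xc P)]
    congr 1
    have h6 : ∀ r ∈ D.roots, f (xc P - r) = max ρ (f r) := by
      intro r hr
      obtain ⟨S, hS0, rfl⟩ := f2_exists hV r
      have h8 : D.eval (xc S) = 0 := (Polynomial.mem_roots hD0).1 hr
      have h9 : φ.k0 S = 0 := by
        by_contra h10
        exact ((hx S hS0).2 h10).1 h8
      by_cases hS : ρ < f (xc S)
      · rw [max_eq_right hS.le]
        refine f2_lt hf (lt_of_le_of_lt ?_ hS)
        have h11 := f2_notBig hf hρ h hV hW φ hφ P hP2 hP0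
        exact not_lt.1 fun h12 => h11 (Or.inr h12)
      · rw [max_eq_left (not_lt.1 hS)]
        refine f2_dist hf hρ h hV hW φ hφ P S hP2 hP0 (by rw [h9, smul_zero]) ?_ ?_
        · rw [h9]
          exact hP0
        · rintro (h10 | h10)
          · exact hS0 h10
          · exact hS h10
    rw [Multiset.map_congr rfl h6]
  -- conclusion
  have hz : (0 : Qb) * (0 - s') * (0 - t') = 0 := by ring
  have hsz : s' * (s' - s') * (s' - t') = 0 := by ring
  have htz : t' * (t' - s') * (t' - t') = 0 := by ring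
  have hΔ : s' ≠ 0 ∧ t' ≠ 0 ∧ s' ≠ t' := by
    have h1 : (lc s' t').Δ = 16 * s' ^ 2 * t' ^ 2 * (s' - t') ^ 2 := by
      simp only [lc, WeierstrassCurve.Δ, WeierstrassCurve.b₂, WeierstrassCurve.b₄,
        WeierstrassCurve.b₆, WeierstrassCurve.b₈]
      ring
    have h2 : (lc s' t').Δ ≠ 0 := hW.isUnit.ne_zero
    rw [h1] at h2
    refine ⟨?_, ?_, ?_⟩
    · rintro rfl
      exact h2 (by ring)
    · rintro rfl
      exact h2 (by ring)
    · rintro rfl
      exact h2 (by ring)
  obtain ⟨hs0, ht0, hst0⟩ := hΔ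
  obtain ⟨P, hP0, hPe, hP2⟩ := hT s' hsz
  obtain ⟨R, hR0, hRe, hR2⟩ := hT t' htz
  have e1 := hM P 0 hP0 hP2 hz (by rw [hPe]; exact hs0)
  have e2 := hM R 0 hR0 hR2 hz (by rw [hRe]; exact ht0)
  have e3 := hM P t' hP0 hP2 htz (by rw [hPe]; exact hst0)
  rw [hPe, sub_zero, hDen P hP0 hP2] at e1
  rw [hRe, sub_zero, hDen R hR0 hR2] at e2
  rw [hPe, hDen P hP0 hP2] at e3
  have hA : 0 < f D.leadingCoeff * (D.roots.map fun r => max ρ (f r)).prod := by
    rw [← hDen P hP0 hP2]
    have hP : P ≠ 0 := by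
      rintro rfl
      exact hP0 (map_zero φ.k0H)
    exact f.pos ((hx P hP).2 hP0).1
  have hB : 0 < f N.leadingCoeff * ρ ^ N.natDegree :=
    mul_pos (f.pos (Polynomial.leadingCoeff_ne_zero.2 hN0)) (pow_pos hρ _)
  refine ⟨f N.leadingCoeff * ρ ^ N.natDegree /
    (f D.leadingCoeff * (D.roots.map fun r => max ρ (f r)).prod), div_pos hB hA, ?_, ?_, ?_⟩
  · rw [eq_div_iff hA.ne']
    exact e1
  · rw [eq_div_iff hA.ne']
    exact e2
  · rw [eq_div_iff hA.ne']
    exact e3

end Pool.Agent.LibNI34
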