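import Pool.Agent.LibNI34.Defs
import Pool.Agent.LibAC36.Dual

/-!
[NI34 F1] the rational function which describes a homomorphism on the first coordinates.
-/

open WeierstrassCurve Pool.Agent.LibBH2 Pool.Agent.LibIG50 Pool.Agent.LibCHd Pool.Agent.LibGG
  Pool.Agent.LibAC34 Pool.Agent.LibAF11
open scoped Classical

namespace Pool.Agent.LibNI34

section places

variable {k K : Type} [Field k] [Field K] [Algebra k K]

/-- the order of a polynomial in an element with a pole -/
theorem ord_aeval_pole (v : Place k K) {s : K} (hs : v.ord s < 0) {p : Polynomial k}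
    (hp : p ≠ 0) : v.ord (Polynomial.aeval s p) = p.natDegree * v.ord s := by
  have hs0 : s ≠ 0 := by
    intro h
    rw [h, v.ord_zero] at hs
    exact lt_irrefl _ hs
  have hz : v.Zer (s⁻¹ - algebraMap k K 0) := by
    rw [map_zero, sub_zero]
    right
    rw [Place.ord_inv]
    omega
  have h1 := Place.val_aeval hz p.reverse
  have h2 : p.reverse.eval 0 ≠ 0 := by
    rw [← Polynomial.coeff_zero_eq_eval_zero, Polynomial.coeff_zero_reverse]
    exact Polynomial.leadingCoeff_ne_zero.2 hp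
  have h3 := Place.ord_eq_zero_of_val h1 h2
  have h4 := Place.ne_zero_of_val h1 h2
  let _ : Invertible s := invertibleOfNonzero hs0
  have h5 := Polynomial.eval₂_reverse_mul_pow (algebraMap k K) s p
  rw [invOf_eq_inv] at h5
  have h6 : Polynomial.aeval s p = Polynomial.aeval s⁻¹ p.reverse * s ^ p.natDegree := by
    rw [Polynomial.aeval_def, Polynomial.aeval_def, h5]
  rw [h6, v.ord_mul _ _ h4 (pow_ne_zero _ hs0), h3, Place.ord_pow, zero_add]

/-- the values of a quotient of coprime polynomials -/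
theorem val_quot {v : Place k K} {s h : K} {x₀ : k} {N D : Polynomial k}
    (hs : v.Zer (s - algebraMap k K x₀))
    (hh : h * Polynomial.aeval s D = Polynomial.aeval s N) (hcop : IsCoprime N D) :
    (v.ord h < 0 → D.eval x₀ = 0) ∧
    (∀ x₁ : k, v.Zer (h - algebraMap k K x₁) → D.eval x₀ ≠ 0 ∧
      N.eval x₀ = x₁ * D.eval x₀) := by
  have hN := Place.val_aeval hs N
  have hD := Place.val_aeval hs D
  refine ⟨fun h1 => ?_, fun x₁ h1 => ?_⟩
  · by_contra h2
    have h3 := Place.ord_eq_zero_of_val hD h2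
    have h4 := Place.ne_zero_of_val hD h2
    have hh0 : h ≠ 0 := by
      intro h
      rw [h, v.ord_zero] at h1
      exact lt_irrefl _ h1
    have h5 := v.ord_mul h _ hh0 h4
    rw [hh, h3, add_zero] at h5
    rcases Place.reg_of_val hN with h6 | h6
    · rw [h6, v.ord_zero] at h5
      omega
    · omega
  · have h2 := Place.val_mul h1 hD
    rw [hh] at h2
    have h3 := Place.val_unique hN h2
    refine ⟨fun h4 => ?_, h3⟩
    rw [h4, mul_zero] at h3
    obtain ⟨a, b, hab⟩ := hcop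
    have h5 := congrArg (Polynomial.eval x₀) hab
    rw [Polynomial.eval_add, Polynomial.eval_mul, Polynomial.eval_mul, h3, h4] at h5
    simp at h5

end places

section curve

variable {k : Type} [Field k] [CharZero k] [IsAlgClosed k]

omit [IsAlgClosed k] in
/-- the involution of the function field, for `a₁ = a₃ = 0` -/
theorem exists_inv {V : WeierstrassCurve k} [V.IsElliptic] (h1 : V.a₁ = 0) (h3 : V.a₃ = 0) :
    ∃ σ : KE V →ₐ[k] KE V, mp σ (genPt V) = -genPt V ∧ σ (DE V).s = (DE V).s ∧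
      σ (DE V).w = -(DE V).w := by
  have hneg : -genPt V = .some (DE V).s ((V⁄(KE V)).toAffine.negY (DE V).s
      ((DE V).w - algebraMap k (KE V) (1 / 2) *
      (algebraMap k (KE V) V.a₁ * (DE V).s + algebraMap k (KE V) V.a₃)))
      ((WeierstrassCurve.Affine.nonsingular_neg _ _).2
        ((Affine.equation_iff_nonsingular_of_Δ_ne_zero
      (W := V⁄(KE V)) (baseChange_Δ_ne (KE V) V)).1 (gen_equation V))) := rfl
  have hnc : LibAC36.NC (-genPt V) := ⟨_, _, _, hneg, LibAC36.trans_s⟩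
  obtain ⟨σ, hσ⟩ := hnc.lift
  obtain ⟨h5, e5⟩ := mp_some σ (DE V).s
    ((DE V).w - algebraMap k (KE V) (1 / 2) *
      (algebraMap k (KE V) V.a₁ * (DE V).s + algebraMap k (KE V) V.a₃))
    ((Affine.equation_iff_nonsingular_of_Δ_ne_zero
      (W := V⁄(KE V)) (baseChange_Δ_ne (KE V) V)).1 (gen_equation V))
  have h6 := (e5.symm.trans hσ).trans hneg
  rw [WeierstrassCurve.Affine.Point.some.injEq] at h6
  obtain ⟨hx, hy⟩ := h6
  refine ⟨σ, hσ, hx, ?_⟩
  rw [WeierstrassCurve.Affine.negY] at hy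
  simp only [h1, h3, map_zero, zero_mul, add_zero, mul_zero, sub_zero, baseChange, map_a₁,
    map_a₃] at hy
  exact hy

omit [IsAlgClosed k] in
theorem exists_rat {V : WeierstrassCurve k} [V.IsElliptic] {σ : KE V →ₐ[k] KE V}
    (hs : σ (DE V).s = (DE V).s) (hw : σ (DE V).w = -(DE V).w) {h : KE V} (hh : σ h = h) :
    ∃ r : RatFunc k, h = (DE V).ι r := by
  obtain ⟨a, b, hab⟩ := (DE V).gen h
  have hpoly : ∀ p : Polynomial k, σ (Polynomial.aeval (DE V).s p) =
      Polynomial.aeval (DE V).s p := by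
    intro p
    rw [← Polynomial.aeval_algHom_apply, hs]
  have hι : ∀ r : RatFunc k, σ ((DE V).ι r) = (DE V).ι r := by
    intro r
    rw [← RatFunc.num_div_denom r, map_div₀, map_div₀, (DE V).ι_poly, (DE V).ι_poly, hpoly,
      hpoly]
  refine ⟨a, ?_⟩
  have h1 : σ h = (DE V).ι a - (DE V).ι b * (DE V).w := by
    rw [hab, map_add, map_mul, hι, hι, hw]
    ring
  have hcz : CharZero (KE V) :=
    charZero_of_injective_algebraMap (algebraMap k (KE V)).injective
  have h2 : (DE V).ι b * (DE V).w = 0 := by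
    have h3 : 2 * ((DE V).ι b * (DE V).w) = 0 := by
      linear_combination h1 - hab - hh
    rcases mul_eq_zero.1 h3 with h4 | h4
    · exact absurd h4 two_ne_zero
    · exact h4
  rw [hab, h2, add_zero]

theorem exists_ND_gen {V W : WeierstrassCurve k} [V.IsElliptic] [W.IsElliptic]
    (h1 : V.a₁ = 0) (h3 : V.a₃ = 0) (φ : Hm V W) (hφ : ∃ p, φ.k0 p ≠ 0) :
    ∃ N D : Polynomial k, IsCoprime N D ∧ D ≠ 0 ∧ D.natDegree < N.natDegree ∧
      (∀ (x₀ y₀ : k) (h₀ : V.toAffine.Nonsingular x₀ y₀),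
        (φ.k0 (.some x₀ y₀ h₀) = 0 → D.eval x₀ = 0) ∧
        (∀ (x₁ y₁ : k) (h₁ : W.toAffine.Nonsingular x₁ y₁),
          φ.k0 (.some x₀ y₀ h₀) = .some x₁ y₁ h₁ →
          D.eval x₀ ≠ 0 ∧ N.eval x₀ = x₁ * D.eval x₀)) := by
  have hne : φ.f (KE V) (genPt V) ≠ 0 := by
    intro h
    obtain ⟨p, hp⟩ := hφ
    exact hp (LibAC36.eta_const φ (c := 0) h p)
  obtain ⟨h, y', hns, hη, -⟩ := (LibAC36.eta_cases φ).resolve_left hne
  obtain ⟨σ, hσ, hs, hw⟩ := exists_inv h1 h3
  -- `h` is invariant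
  have hh : σ h = h := by
    have e1 : φ.f (KE V) (mp σ (genPt V)) = mp σ (φ.f (KE V) (genPt V)) := φ.nat _ _ σ _
    rw [hσ, map_neg, hη] at e1
    obtain ⟨h5, e5⟩ := mp_some σ h y' hns
    rw [e5] at e1
    have e6 : (-(WeierstrassCurve.Affine.Point.some h y' hns : (W⁄(KE V)).toAffine.Point)) =
      .some h ((W⁄(KE V)).toAffine.negY h y')
        ((WeierstrassCurve.Affine.nonsingular_neg _ _).2 hns) := rfl
    rw [e6, WeierstrassCurve.Affine.Point.some.injEq] at e1
    exact e1.1.symm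
  obtain ⟨r, hr⟩ := exists_rat hs hw hh
  have hD0 : r.denom ≠ 0 := r.denom_ne_zero
  have hquot : h * Polynomial.aeval (DE V).s r.denom = Polynomial.aeval (DE V).s r.num := by
    have h5 := (DE V).aeval_ne_zero hD0
    conv_lhs => rw [hr, ← RatFunc.num_div_denom r, map_div₀, (DE V).ι_poly, (DE V).ι_poly]
    rw [RatFunc.num_div_denom r]
    field_simp
  have hcop : IsCoprime r.num r.denom := r.isCoprime_num_denom
  -- specialisation
  have hspec : ∀ (p : V.toAffine.Point) (v : Place k (KE V)), Spec v (genPt V) p →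
      Spec v (.some h y' hns : (W⁄(KE V)).toAffine.Point) (φ.k0 p) := by
    intro p v hv
    have h4 := φ.sp (KE V) v _ _ (spec_iff_spR.1 hv)
    rw [φ.const, hη] at h4
    exact spec_iff_spR.2 h4
  refine ⟨r.num, r.denom, hcop, hD0, ?_, ?_⟩
  · -- the point at infinity
    obtain ⟨v, hv⟩ := place_exists (0 : V.toAffine.Point)
    have h4 := hspec 0 v hv
    rw [LibAC36.k0_zero] at h4
    have h5 : v.ord h < 0 := h4
    have h6 : v.ord (DE V).s < 0 := hv
    have hh0 : h ≠ 0 := by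
      intro h'
      rw [h', v.ord_zero] at h5
      exact lt_irrefl _ h5
    have h7 := (DE V).aeval_ne_zero hD0
    have h8 := v.ord_mul h _ hh0 h7
    have hN0 : r.num ≠ 0 := by
      intro h'
      rw [h', map_zero] at hquot
      exact (mul_ne_zero hh0 h7) hquot
    rw [hquot, ord_aeval_pole v h6 hN0, ord_aeval_pole v h6 hD0] at h8
    by_contra hcon
    push Not at hcon
    have h9 : (r.num.natDegree : ℤ) ≤ r.denom.natDegree := by exact_mod_cast hcon
    nlinarith
  · intro x₀ y₀ h₀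
    obtain ⟨v, hv⟩ := place_exists (.some x₀ y₀ h₀ : V.toAffine.Point)
    have h4 := hspec _ v hv
    have h5 := ((spec_some_iff v h₀).1 hv).1
    obtain ⟨q1, q2⟩ := val_quot h5 hquot hcop
    refine ⟨fun h6 => ?_, fun x₁ y₁ h₁ h6 => ?_⟩
    · rw [h6] at h4
      exact q1 h4
    · rw [h6] at h4
      exact q2 x₁ h4.1

end curve

theorem exists_ND {s t s' t' : Qb} (hV : (lc s t).IsElliptic) (hW : (lc s' t').IsElliptic)
    (φ : Hm (lc s t) (lc s' t')) (hφ : ∃ p, φ.k0 p ≠ 0) :
    ∃ N D : Polynomial Qb, IsCoprime N D ∧ D ≠ 0 ∧ D.natDegree < N.natDegree ∧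
      ∀ P : (lc s t).toAffine.Point, P ≠ 0 →
        (φ.k0 P = 0 → D.eval (xc P) = 0) ∧
        (φ.k0 P ≠ 0 → D.eval (xc P) ≠ 0 ∧ N.eval (xc P) = xc (φ.k0 P) * D.eval (xc P)) := by
  obtain ⟨N, D, h1, h2, h3, h4⟩ := exists_ND_gen (V := lc s t) (W := lc s' t') rfl rfl φ hφ
  refine ⟨N, D, h1, h2, h3, ?_⟩
  intro P hP
  match P, hP with
  | .zero, hP => exact absurd rfl hP
  | .some x₀ y₀ h₀, _ =>
    refine ⟨(h4 x₀ y₀ h₀).1, fun hne => ?_⟩
    have key : ∀ Q : (lc s' t').toAffine.Point, φ.k0 (.some x₀ y₀ h₀) = Q → Q ≠ 0 →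
        D.eval x₀ ≠ 0 ∧ N.eval x₀ = xc Q * D.eval x₀ := by
      intro Q hQ hQ0
      match Q, hQ, hQ0 with
      | .zero, _, hQ0 => exact absurd rfl hQ0
      | .some x₁ y₁ h₁, hQ, _ => exact (h4 x₀ y₀ h₀).2 x₁ y₁ h₁ hQ
    exact key _ rfl hne

end Pool.Agent.LibNI34
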