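import Pool.Agent.LibNI34.Defs

/-!
[NI34 G1] the kernel of the reduction (elementary estimates with the formulas for the addition of points; MEDIUM).
`s ≠ 0`, `t ≠ 0`, `s ≠ t` follow from `Eq3` and `0 < ρ`. Points: `P = some x y h`, `h.1 : y ^ 2 = x (x - s) (x - t)`
(`WeierstrassCurve.Affine.equation_iff`). For `x₁ ≠ x₂` the first coordinate of the sum is
`L ^ 2 + (s + t) - x₁ - x₂`, `L = (y₁ - y₂) / (x₁ - x₂)` (`Affine.Point.add_some`, `addX`, `slope_of_X_ne`); for the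
difference `-P = some x (-y)`.
`big_sub`: let `P = (u, v)` with `f u > ρ` and `R = (x, y)` with `f x ≤ ρ`. Then `f v ^ 2 = f u ^ 3`, `f y ^ 2 ≤ ρ ^ 3`,
`(u - x) ^ 2 * x_(R ± P) = x-polynomial`: with `a = -(s+t)`, `b = s t`, `f a ≤ ρ`, `f b = ρ ^ 2`:
`(u - x) ^ 2 (x_(R ± P) + x) = b u ∓ 2 y v + y ^ 2 + 2 u ^ 2 x - u x ^ 2 + 2 a u x - a x ^ 2` (check the sign), and
every term has absolute value `≤ f u ^ 2 * ρ` (`f y * f v ≤ ρ ^ (3/2) * f u ^ (3/2)`: compare squares). So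
`f (x_(R ± P)) ≤ ρ`; and `R ± P ≠ 0` since `f x ≠ f u`.
`big_add`: if `P`, `Q` are big and `P + Q` is not then `Q = (P + Q) + (-P)` is not big by `big_sub`
(`Big (-P)`: `xc (-P) = xc P`). `big_smul`: induction.
-/

open WeierstrassCurve Pool.Agent.LibBH2 Pool.Agent.LibIG50
open scoped Classical

namespace Pool.Agent.LibNI34

variable {f : AbsoluteValue Qb ℝ} {ρ : ℝ} {s t : Qb}

theorem xc_neg (P : (lc s t).toAffine.Point) : xc (-P) = xc P := by
  match P with
  | .zero => rfl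
  | .some x y h => rfl

private theorem G1_eq {x y : Qb} (h : (lc s t).toAffine.Nonsingular x y) :
    y ^ 2 = x ^ 3 - (s + t) * x ^ 2 + s * t * x := by
  have h1 := (Affine.equation_iff x y).1 h.1
  simp only [lc, WeierstrassCurve.toAffine] at h1
  linear_combination h1

private theorem G1_est (hf : Odd2 f) (hρ : 0 < ρ) (hs : f s = ρ) (ht : f t = ρ) {u v x y : Qb}
    (hv : v ^ 2 = u ^ 3 - (s + t) * u ^ 2 + s * t * u)
    (hy : y ^ 2 = x ^ 3 - (s + t) * x ^ 2 + s * t * x) (hx : f x ≤ ρ) (hu : ρ < f u) :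
    f (((y - v) / (x - u)) ^ 2 + (s + t) - x - u) ≤ ρ := by
  obtain ⟨r, hr⟩ : ∃ r, r = f u := ⟨_, rfl⟩
  rw [← hr] at hu
  have hr0 : 0 < r := hρ.trans hu
  have hadd : ∀ (M : ℝ) (a b : Qb), f a ≤ M → f b ≤ M → f (a + b) ≤ M := fun M a b h1 h2 =>
    (hf.na a b).trans (max_le h1 h2)
  have hsub : ∀ (M : ℝ) (a b : Qb), f a ≤ M → f b ≤ M → f (a - b) ≤ M := fun M a b h1 h2 => by
    rw [sub_eq_add_neg]
    exact hadd M a (-b) h1 (by rwa [f.map_neg])
  have hx0 : 0 ≤ f x := f.nonneg x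
  have hxr : f x ≤ r := hx.trans hu.le
  have hst : f (s + t) ≤ ρ := hadd ρ s t hs.le ht.le
  -- `x - u`
  have hD : r ≤ f (x - u) := by
    by_contra hc
    push Not at hc
    have h1 := hf.na (u - x) x
    rw [sub_add_cancel, ← hr, f.map_sub u x] at h1
    rcases le_max_iff.1 h1 with h2 | h2
    · exact absurd h2 (not_le.2 hc)
    · linarith
  have hD0 : x - u ≠ 0 := by
    intro h
    rw [h, f.map_zero] at hD
    linarith
  -- squares of the second coordinates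
  have hy2 : f y ^ 2 ≤ ρ ^ 3 := by
    rw [← f.map_pow, hy, show x ^ 3 - (s + t) * x ^ 2 + s * t * x = x * ((x - s) * (x - t)) by ring,
      f.map_mul, f.map_mul]
    have h1 : f (x - s) ≤ ρ := hsub ρ x s hx hs.le
    have h2 : f (x - t) ≤ ρ := hsub ρ x t hx ht.le
    calc f x * (f (x - s) * f (x - t)) ≤ ρ * (ρ * ρ) :=
          mul_le_mul hx (mul_le_mul h1 h2 (f.nonneg _) hρ.le)
            (mul_nonneg (f.nonneg _) (f.nonneg _)) hρ.le
      _ = ρ ^ 3 := by ring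
  have hv2 : f v ^ 2 ≤ r ^ 3 := by
    rw [← f.map_pow, hv, show u ^ 3 - (s + t) * u ^ 2 + s * t * u = u * ((u - s) * (u - t)) by ring,
      f.map_mul, f.map_mul, ← hr]
    have h1 : f (u - s) ≤ r := hsub r u s hr.ge (hs.le.trans hu.le)
    have h2 : f (u - t) ≤ r := hsub r u t hr.ge (ht.le.trans hu.le)
    calc r * (f (u - s) * f (u - t)) ≤ r * (r * r) :=
          mul_le_mul_of_nonneg_left (mul_le_mul h1 h2 (f.nonneg _) hr0.le) hr0.le
      _ = r ^ 3 := by ring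
  have hyv : f y * f v ≤ r ^ 2 * ρ := by
    have h1 : (f y * f v) ^ 2 ≤ (r ^ 2 * ρ) ^ 2 := by
      rw [mul_pow]
      calc f y ^ 2 * f v ^ 2 ≤ ρ ^ 3 * r ^ 3 :=
            mul_le_mul hy2 hv2 (by positivity) (by positivity)
        _ = (ρ ^ 2 * r ^ 3) * ρ := by ring
        _ ≤ (ρ ^ 2 * r ^ 3) * r := mul_le_mul_of_nonneg_left hu.le (by positivity)
        _ = (r ^ 2 * ρ) ^ 2 := by ring
    exact (pow_le_pow_iff_left₀ (mul_nonneg (f.nonneg _) (f.nonneg _)) (by positivity)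
      two_ne_zero).1 h1
  -- the polynomial
  have key : (x - u) ^ 2 * ((((y - v) / (x - u)) ^ 2 + (s + t) - x - u) + x) =
      y ^ 2 - 2 * (y * v) + s * t * u + (s + t) * x ^ 2 - 2 * ((s + t) * (x * u)) - u * x ^ 2 +
        2 * (x * u ^ 2) := by
    have h1 : (x - u) ^ 2 * ((y - v) / (x - u)) ^ 2 = (y - v) ^ 2 := by
      rw [← mul_pow, mul_div_cancel₀ _ hD0]
    linear_combination h1 + hv
  have hρr : ρ ^ 2 ≤ r ^ 2 := pow_le_pow_left₀ hρ.le hu.le 2
  have hx2 : f x ^ 2 ≤ ρ ^ 2 := pow_le_pow_left₀ hx0 hx 2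
  have t1 : f (y ^ 2) ≤ r ^ 2 * ρ := by
    rw [f.map_pow]
    calc f y ^ 2 ≤ ρ ^ 3 := hy2
      _ = ρ ^ 2 * ρ := by ring
      _ ≤ r ^ 2 * ρ := mul_le_mul_of_nonneg_right hρr hρ.le
  have t2 : f (2 * (y * v)) ≤ r ^ 2 * ρ := by
    rw [f.map_mul, hf.two, one_mul, f.map_mul]
    exact hyv
  have t3 : f (s * t * u) ≤ r ^ 2 * ρ := by
    rw [f.map_mul, f.map_mul, hs, ht, ← hr]
    calc ρ * ρ * r ≤ r * ρ * r :=
          mul_le_mul_of_nonneg_right (mul_le_mul_of_nonneg_right hu.le hρ.le) hr0.le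
      _ = r ^ 2 * ρ := by ring
  have t4 : f ((s + t) * x ^ 2) ≤ r ^ 2 * ρ := by
    rw [f.map_mul, f.map_pow]
    calc f (s + t) * f x ^ 2 ≤ ρ * ρ ^ 2 := mul_le_mul hst hx2 (by positivity) hρ.le
      _ ≤ ρ * r ^ 2 := mul_le_mul_of_nonneg_left hρr hρ.le
      _ = r ^ 2 * ρ := by ring
  have t5 : f (2 * ((s + t) * (x * u))) ≤ r ^ 2 * ρ := by
    rw [f.map_mul, hf.two, one_mul, f.map_mul, f.map_mul, ← hr]
    calc f (s + t) * (f x * r) ≤ ρ * (r * r) :=
          mul_le_mul hst (mul_le_mul_of_nonneg_right hxr hr0.le) (by positivity) hρ.le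
      _ = r ^ 2 * ρ := by ring
  have t6 : f (u * x ^ 2) ≤ r ^ 2 * ρ := by
    rw [f.map_mul, f.map_pow, ← hr]
    calc r * f x ^ 2 = r * (f x * f x) := by ring
      _ ≤ r * (r * ρ) :=
          mul_le_mul_of_nonneg_left (mul_le_mul hxr hx hx0 hr0.le) hr0.le
      _ = r ^ 2 * ρ := by ring
  have t7 : f (2 * (x * u ^ 2)) ≤ r ^ 2 * ρ := by
    rw [f.map_mul, hf.two, one_mul, f.map_mul, f.map_pow, ← hr, mul_comm]
    exact mul_le_mul_of_nonneg_left hx (by positivity)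
  have hsum := hadd _ _ _ (hsub _ _ _ (hsub _ _ _ (hadd _ _ _ (hadd _ _ _ (hsub _ _ _ t1 t2) t3)
    t4) t5) t6) t7
  rw [← key, f.map_mul, f.map_pow] at hsum
  obtain ⟨X, hX⟩ : ∃ X, X = ((y - v) / (x - u)) ^ 2 + (s + t) - x - u := ⟨_, rfl⟩
  rw [← hX] at hsum ⊢
  have h1 : f (X + x) ≤ ρ := by
    have h2 : r ^ 2 * f (X + x) ≤ r ^ 2 * ρ :=
      (mul_le_mul_of_nonneg_right (pow_le_pow_left₀ hr0.le hD 2) (f.nonneg _)).trans hsum
    exact le_of_mul_le_mul_left h2 (by positivity)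
  have h2 := hsub ρ (X + x) x h1 hx
  rwa [add_sub_cancel_right] at h2

theorem big_sub (hf : Odd2 f) (hρ : 0 < ρ) (h : Eq3 f ρ s t) (R P : (lc s t).toAffine.Point)
    (hR : ¬ Big f ρ R) (hP : Big f ρ P) : ¬ Big f ρ (R + P) := by
  match R, P with
  | .zero, P => exact absurd (Or.inl rfl) hR
  | .some x y hxy, .zero =>
    have h1 : (Affine.Point.some x y hxy : (lc s t).toAffine.Point) + .zero =
        .some x y hxy := add_zero _
    rw [h1]
    exact hR
  | .some x y hxy, .some u v huv =>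
    have hx : f x ≤ ρ := by
      by_contra hc
      exact hR (Or.inr (not_le.1 hc))
    have hu : ρ < f u := by
      rcases hP with h1 | h1
      · exact absurd h1 (Affine.Point.some_ne_zero huv)
      · exact h1
    have hxu : x ≠ u := by
      rintro rfl
      linarith
    rw [Affine.Point.add_of_X_ne hxu]
    rintro (h1 | h1)
    · exact absurd h1 (Affine.Point.some_ne_zero _)
    · rw [xc_some, Affine.slope_of_X_ne hxu] at h1
      have h2 := G1_est hf hρ h.hs h.ht (G1_eq huv) (G1_eq hxy) hx hu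
      have h3 : (lc s t).toAffine.addX x u ((y - v) / (x - u)) =
          ((y - v) / (x - u)) ^ 2 + (s + t) - x - u := by
        simp only [Affine.addX, lc, WeierstrassCurve.toAffine]
        ring
      rw [h3] at h1
      linarith

private theorem G1_neg {P : (lc s t).toAffine.Point} (hP : Big f ρ P) : Big f ρ (-P) := by
  rcases hP with h | h
  · left
    rw [h, neg_zero]
  · right
    rwa [xc_neg]

theorem big_add (hf : Odd2 f) (hρ : 0 < ρ) (h : Eq3 f ρ s t) (P Q : (lc s t).toAffine.Point)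
    (hP : Big f ρ P) (hQ : Big f ρ Q) : Big f ρ (P + Q) := by
  by_contra hc
  have h1 := big_sub hf hρ h (P + Q) (-P) hc (G1_neg hP)
  apply h1
  have h2 : P + Q + -P = Q := by abel
  rwa [h2]

theorem big_smul (hf : Odd2 f) (hρ : 0 < ρ) (h : Eq3 f ρ s t) (P : (lc s t).toAffine.Point)
    (hP : Big f ρ P) (n : ℕ) : Big f ρ (n • P) := by
  induction n with
  | zero =>
    left
    exact zero_nsmul P
  | succ n ih =>
    rw [succ_nsmul]
    exact big_add hf hρ h _ _ ih hP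

end Pool.Agent.LibNI34
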